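import Pool.Agent.R669.Dg.Hnn
import Pool.Agent.Y529.FJ.Ext
import Pool.Agent.Y961.FJ.Perm

/-!
# HNN extensions of groups of finite-valued functions in the Farrell–Jones class

`C` is any class of groups with the closure properties `ClosedE C`. The class of the groups that
satisfy the K-theoretic Farrell–Jones conjecture with coefficients in additive categories and finite
wreath products has these properties. It is not known whether it is closed under HNN extensions.

Let `M` be a group of functions `X → H` with finitely many values, `X` a set and `H` in `C`.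
Consider subgroups of `M` and isomorphisms between them which are given by partial permutations of `X`
and conjugations by functions with finitely many values. Then the multiple HNN extension of `M` with
all these (finitely or infinitely many) associated isomorphisms is in `C`.

For instance, for `G` in `C` the multiple HNN extensions of `G^n` whose associated subgroups are
diagonal copies of powers `G^k` are in `C` (`G^n` consists of functions on `X = {1, …, n} × ℕ`; this
case is worked out in `Pool.Agent.R669.Dg.t_fin`). Examples are the groups
`⟨G^n, t | t (g_1, …, g_(n-1), 1) t⁻¹ = (1, g_1, …, g_(n-1))⟩`, which are finitely presented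
approximations to the wreath product of `G` and `ℤ`, and the mitosis
`⟨G × G, s, d | s (g, 1) s⁻¹ = (1, g), d (g, 1) d⁻¹ = (g, g)⟩` of Baumslag, Dyer and Heller.

Idea of the proof. The partial permutations of `X` extend to permutations of `X ⊔ X × ℕ`, and the
semidirect product of the group of functions with finitely many values on this set with a free group
is in `C`: finite sets of functions with finitely many values are locally realized by eventually
periodic functions.
-/

set_option autoImplicit false

namespace Pool.Agent.Results.MP_f7db47_al.DiagonalHNN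

open Pool.Agent.Y110.FJ

/-- the relations `t_i α_i(b) t_i⁻¹ = β_i(b)` for `b` in `B i` -/
def hnnRel {M I : Type} [Group M] {B : I → Type} [∀ i, Group (B i)] (α β : ∀ i, B i →* M) :
    Set (Monoid.Coprod M (FreeGroup I)) :=
  {r | ∃ (i : I) (b : B i), r = Monoid.Coprod.inr (FreeGroup.of i) * Monoid.Coprod.inl (α i b) *
    (Monoid.Coprod.inr (FreeGroup.of i))⁻¹ * (Monoid.Coprod.inl (β i b))⁻¹}

/-- the multiple HNN extension `⟨M, t_i | t_i α_i(b) t_i⁻¹ = β_i(b), b ∈ B i⟩` -/
abbrev MultipleHNN {M I : Type} [Group M] {B : I → Type} [∀ i, Group (B i)]
    (α β : ∀ i, B i →* M) : Type :=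
  Monoid.Coprod M (FreeGroup I) ⧸ Subgroup.normalClosure (hnnRel α β)

/-- `M` is a group of functions `X → H` by means of `e`. The function `β b` is obtained from the
function `α b`, which is trivial outside of `U`, by the bijection `τ` from `U` to `V`, and conjugation
by a function `h` with finitely many values; it is trivial outside of `V`. -/
def MovedByPartialPermutation {X H M B : Type} [Group H] [Group M] [Group B] (e : M →* (X → H))
    (α β : B →* M) : Prop :=
  ∃ (U V : Set X) (τ : U ≃ V) (h : X → H), (Set.range h).Finite ∧ ∀ b : B,
    (∀ x, x ∉ U → e (α b) x = 1) ∧ (∀ x, x ∉ V → e (β b) x = 1) ∧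
    ∀ u : U, e (β b) (τ u) = h (τ u) * e (α b) u * (h (τ u))⁻¹

theorem result (C : ∀ (G : Type) [Group G], Prop) (hC : ClosedE C)
    (X H M : Type) [Group H] [Group M] (hH : C H) (e : M →* (X → H)) (he : Function.Injective e)
    (hfin : ∀ m, (Set.range (e m)).Finite) (I : Type) (B : I → Type) [∀ i, Group (B i)]
    (α β : ∀ i, B i →* M) (hα : ∀ i, Function.Injective (α i))
    (hm : ∀ i, MovedByPartialPermutation e (α i) (β i)) : C (MultipleHNN α β) := by
  have hcrit : S_CRIT := Pool.Agent.R779.FJ.t_crit Pool.Agent.Y529.FJ.t_ext
    (Pool.Agent.Y961.FJ.t_perm Pool.Agent.Y529.FJ.t_ext)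
  have hperm : S_PERM := Pool.Agent.Y961.FJ.t_perm Pool.Agent.Y529.FJ.t_ext
  choose U V τ h hh h1 using hm
  refine Pool.Agent.R669.Dg.t_diag hcrit hperm C hC hH e hfin he α β hα U V τ h hh
    (fun i b => (h1 i b).1) (fun i b => (h1 i b).2.1) ?_
  intro i b v
  have h2 := (h1 i b).2.2 ((τ i).symm v)
  rw [Equiv.apply_symm_apply] at h2
  exact h2

end Pool.Agent.Results.MP_f7db47_al.DiagonalHNN
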