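import Pool.Agent.R942.FJ.SerMain

/-!
# General linear groups of rings with an ascending series of ideals

`C` is any class of groups with the closure properties `ClosedE C` which contains the metabelian
groups. All this is known for the class of the groups that satisfy the K- and L-theoretic
Farrell–Jones conjecture with coefficients and finite wreath products.

Let `S` be a ring, `K` a two-sided ideal, and suppose that every two-sided ideal `I < K` is properly
contained in a two-sided ideal `J ≤ K` such that the factor `J / I` is (`Admissible`)

* of square zero (`x y ∈ I` for `x, y ∈ J`), or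
* locally finite (each finite subset of `J` lies in a nonunital subring which is finite modulo `I`), or
* an ideal of `S ⧸ I` with local units whose corners have general linear groups in `C`: each finite
  subset of `J / I` lies in `F (S ⧸ I) F` with `F ∈ J / I` idempotent and `GL_m(F (S ⧸ I) F)` in `C` for
  all `m` (`LocalGL`).

Let `ρ : G → GL_n(S)` be a homomorphism and `N` a normal subgroup of `G` with `G ⧸ N` in `C`, such that `ρ`
is injective on `N` and `ρ(N)` is congruent to `1` modulo `K`. Then `G` is in `C`.

For `K = S` and `G = N = GL_n(S)`: all `GL_n(S)` are in `C`. The length of the series may be any ordinal.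

Outline of the proof. For an ideal `I ≤ K` let `N(I)` be the group of all `g ∈ N` with
`ρ(g) ≡ 1 mod I`. The ideals `I` such that all groups `N(I) ⟨g⟩`, `g ∈ G`, are in `C` are closed under
unions of chains. If `J / I` is of square zero then `N(J) / N(I)` is abelian, if it is locally finite
then so is `N(J) / N(I)`, and if it has local units then the conjugation by `g` is locally realized on
`N(J) / N(I)` in the groups `GL_{2n}(F (S ⧸ I) F)`: with `f ≡ 1` on the given finite set and
`f' = g f g⁻¹` the matrix with rows `g f, F - f'` and `F - f, f g⁻¹` does it. So the groups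
`N(J) ⟨g⟩ / N(I)` are in `C`, and by the extension criterion a maximal `I` is equal to `K`.
-/

set_option autoImplicit false

namespace Pool.Agent.Results.MP_f7db47_al.IdealSeries

open Pool.Agent.Y110.FJ Pool.Agent.R942.FJ

theorem result (C : ∀ (G : Type) [Group G], Prop) (hC : ClosedE C)
    (hmet : ∀ (S : Type) [Group S], (∀ a ∈ commutator S, ∀ b ∈ commutator S, a * b = b * a) → C S)
    (S : Type) [Ring S] (K : Ideal S)
    (hK : ∀ I : Ideal S, ∀ _ : I.IsTwoSided, I < K → ∃ J : Ideal S, J.IsTwoSided ∧ I < J ∧ J ≤ K ∧
      Admissible C I J)
    (n : ℕ) (G : Type) [Group G] (ρ : G →* (Matrix (Fin n) (Fin n) S)ˣ) (N : Subgroup G) [N.Normal]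
    (hinj : ∀ g ∈ N, ρ g = 1 → g = 1)
    (hN : ∀ g ∈ N, ∀ i j, ((ρ g : Matrix (Fin n) (Fin n) S) - 1) i j ∈ K)
    (hQ : C (G ⧸ N)) : C G :=
  series hC hmet N ρ hinj K hN hQ hK

end Pool.Agent.Results.MP_f7db47_al.IdealSeries
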