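import Pool.Agent.R615.K1.PT
import Pool.Agent.Y483.PI.Main

/-!
The kernels of the integral assembly maps in algebraic K-theory of groups `N ⋊ Γ`, `Γ` arbitrary.

`R` is an arbitrary ring and `kgr R` is the functor `G ↦ K₁(R[G])`, not tensored with `ℚ`; since `R` is
arbitrary, this contains the groups `K_n(R[G])`, `n ≤ 1`, as direct summands of `K₁(R[ℤ^m][G])`. `H` is
a functor from groups to abelian groups on which inner automorphisms act trivially, for instance the
source of the Farrell-Jones assembly map, and `α : H ⟶ kgr R` is natural.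

`Γ` is an arbitrary group, acting on a set `V` and on a group `N` with endomorphisms `e_S`, `S ⊆ V`,
such that `e_S e_T = e_{S ∩ T}` and `γ e_S = e_{γ S} γ`, and each element of `N` is fixed by `e_S` for
some finite `S`; `N_S` is the image of `e_S` and `Γ_σ` is the group of the elements of `Γ` which fix
the elements of `σ`. The stabilizers may be infinite. Let `C` be a `Γ`-invariant set of finite subsets
of `V` closed under subsets, and let `q` be a common multiple of the numbers of the permutations of
`σ`, `σ ∈ C`, which are restrictions of elements of `Γ`. If `x ∈ H(N ⋊ Γ)` is a sum of elements from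
the groups `H(N_σ ⋊ Γ_σ)`, `σ ∈ C`, and `α(x) = 0`, then `q x` is a sum of elements from the kernels of
`α` for the groups `N_σ ⋊ Γ_σ`, `σ ∈ C`.
-/

namespace Pool.Agent.Results.MP_f7db47_al.IntegralSupportKernel

open Pool.Agent.Y477.IW Pool.Agent.Y483.PW Pool.Agent.Y483.PI Pool.Agent.R615.K1

theorem result (R : Type) [Ring R]
    {Γ N V : Type} [Group Γ] [Group N] [MulAction Γ V] (s : Sys Γ N V)
    (C : Set (Finset V)) (hC : IsFam Γ C) (q : ℕ) (hq : ∀ σ ∈ C, permNo Γ σ ∣ q) :
    KerFormula (kgr R) s C q :=
  kerFormula (hasPTI_kgr R) s C hC q hq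

end Pool.Agent.Results.MP_f7db47_al.IntegralSupportKernel
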