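import Pool.Agent.R632.SL.Main

/-!
# Extensions of Farrell–Jones groups by linear groups with a semilinear action

`C` is any class of groups with the closure properties `ClosedE C`, all of which are known for the
class of the groups that satisfy the Full Farrell–Jones Conjecture.

Let `G` be a group with a normal subgroup `N` such that `G ⧸ N` is in `C`.

(1) Let `K` be an algebraic extension of `ℚ` with `GL_m(K)` in `C` for all `m`, and let `N` be embedded in
`GL_n(K)`. Suppose that each `g` in `G` acts on `N` by `x ↦ T σ(x) T⁻¹` for some field automorphism `σ`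
of `K` and some matrix `T` in `GL_n(K)` which depend on `g` in any way. Then `G` is in `C`.

(2) More generally, `K` can be any field with `GL_m(K)` in `C` for all `m`, with automorphisms `σ` all
of whose orbits are finite.

(3) Still more generally it is enough that for each `g` in `G` and each finite subset `E` of `N` the
finitely generated group `⟨E ∪ g E g⁻¹⟩` can be embedded in some `GL_n(K)`, where `n` and `K` may depend
on `g` and `E`, such that the conjugation by `g` is `x ↦ T σ(x) T⁻¹` on `E`.

Outline of the proof. Let `k` be the fixed field of `σ`. The entries of the matrices of `E`, `g E g⁻¹`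
and of `T` are in a subfield `L` of `K` which is stable under `σ` and finite over `k`. The map
`v ↦ T σ(v)` is an automorphism of the space `L^n` over `k`, and it realizes the conjugation by `g` in
`GL_k(L^n)`, which is contained in `GL_m(K)`. So the criterion `MP_490288_al.RealizationCriterion`
applies.
-/

set_option autoImplicit false

namespace Pool.Agent.Results.MP_f7db47_al.SemilinearExtensions

open Matrix Pool.Agent.Y110.FJ

/-- Every element of `K` has a finite orbit under `σ`. -/
def FiniteOrbits {K : Type} [Field K] (σ : K ≃+* K) : Prop :=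
  ∀ x : K, ∃ m : ℕ, 0 < m ∧ (σ : K → K)^[m] x = x

/-- `b = T σ(a) T⁻¹`, where `σ` is applied to the entries of `a`. -/
def SemiConj {K : Type} [Field K] {n : ℕ} (σ : K ≃+* K) (T a b : GL (Fin n) K) : Prop :=
  b = T * Matrix.GeneralLinearGroup.map (σ : K →+* K) a * T⁻¹

/-- For each `g` in `G` the conjugation by `g` on `N`, embedded in `GL_n(K)` by `ι`, is
`x ↦ T σ(x) T⁻¹` for some `T` in `GL_n(K)` and some automorphism `σ` of `K` with the property `P`. -/
def ActsSemilinearly {G : Type} [Group G] {N : Subgroup G} {K : Type} [Field K] {n : ℕ}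
    (P : (K ≃+* K) → Prop) (ι : N →* GL (Fin n) K) : Prop :=
  ∀ g : G, ∃ (σ : K ≃+* K) (T : GL (Fin n) K), P σ ∧
    ∀ x y : N, (y : G) = g * x * g⁻¹ → SemiConj σ T (ι x) (ι y)

/-- The group `⟨E ∪ g E g⁻¹⟩` can be embedded in some `GL_n(K)`, for some field `K` with all `GL_m(K)` in
`C`, such that the conjugation by `g` is `x ↦ T σ(x) T⁻¹` on `E`, with an automorphism `σ` of `K` with
finite orbits. -/
def LocalEmbedding (C : ∀ (G : Type) [Group G], Prop) {G : Type} [Group G] (g : G)
    (E : Set G) : Prop :=
  ∃ (K : Type) (_ : Field K) (n : ℕ)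
    (f : ↥(Subgroup.closure (E ∪ (fun x => g * x * g⁻¹) '' E)) →* GL (Fin n) K)
    (σ : K ≃+* K) (T : GL (Fin n) K), (∀ m : ℕ, C (GL (Fin m) K)) ∧ Function.Injective f ∧
    FiniteOrbits σ ∧ ∀ x y : ↥(Subgroup.closure (E ∪ (fun x => g * x * g⁻¹) '' E)),
      (x : G) ∈ E → (y : G) = g * x * g⁻¹ → SemiConj σ T (f x) (f y)

theorem result (C : ∀ (G : Type) [Group G], Prop) (hC : ClosedE C)
    (G : Type) [Group G] (N : Subgroup G) [N.Normal] (hQ : C (G ⧸ N)) :
    (∀ (K : Type) [Field K] [CharZero K] [Algebra.IsAlgebraic ℚ K] (n : ℕ)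
      (ι : N →* GL (Fin n) K), (∀ m : ℕ, C (GL (Fin m) K)) → Function.Injective ι →
      ActsSemilinearly (fun _ => True) ι → C G) ∧
    (∀ (K : Type) [Field K] (n : ℕ)
      (ι : N →* GL (Fin n) K), (∀ m : ℕ, C (GL (Fin m) K)) → Function.Injective ι →
      ActsSemilinearly FiniteOrbits ι → C G) ∧
    ((∀ (g : G) (E : Set G), E.Finite → E ⊆ N → LocalEmbedding C g E) → C G) := by
  refine ⟨?_, ?_, ?_⟩
  · intro K _ _ _ n ι hK hι h
    refine Pool.Agent.R632.SL.main_global hC G N hQ K hK n ι hι fun g => ?_
    obtain ⟨σ, T, -, hT⟩ := h g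
    exact ⟨σ, T, Pool.Agent.R632.SL.finite_orbit σ, hT⟩
  · intro K _ n ι hK hι h
    exact Pool.Agent.R632.SL.main_global hC G N hQ K hK n ι hι h
  · intro h
    exact Pool.Agent.R632.SL.main hC G N hQ h

end Pool.Agent.Results.MP_f7db47_al.SemilinearExtensions
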